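import Mathlib
import Pool.Agent.H41.OVO.Defs

/-!
# Ovoids of PG(3,2^h): all slots, in raw sums

`Tf s y u I J` = sum over the points of: four letters at digit 0 (two of them inside `Qf`), the letter
`u` at digit 1, two letters `I k`, `J k` at every other digit `k`.
`Tg` : digit `d` is empty and there is one more letter `r` at digit `d + 1`.
Downward induction on the digit: `Tg = 0`, `Tf` is alternating at `d`, and the pairs `(x,f)` and
`(s,t)` at `d` give the same value.
-/

set_option autoImplicit false

namespace Pool.OVS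

open Finset Function Pool.OVE

section alg

variable {F : Type} [Field F]

/-- a symmetric function of three letters, alternating, `(x,f)` and `(s,t)` equal, is zero -/
theorem g_zero (g : Fin 4 → Fin 4 → Fin 4 → F) (h1 : ∀ a b c, g a b c = g b a c)
    (h2 : ∀ a b c, g a b c = g a c b) (h0 : ∀ a b, g a b b = 0) (hq : ∀ a, g a 0 3 = g a 1 2) :
    ∀ a b c, g a b c = 0 := by
  have h0' : ∀ a b, g b a b = 0 := fun a b => by rw [h1]; exact h0 a b
  have h0'' : ∀ a b, g b b a = 0 := fun a b => by rw [h2]; exact h0' a b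
  have e012 : g 0 1 2 = 0 := by rw [← hq]; exact h0'' _ _
  have e103 : g 1 0 3 = 0 := by rw [hq]; exact h0'' _ _
  have e203 : g 2 0 3 = 0 := by rw [hq]; exact h0' _ _
  have e312 : g 3 1 2 = 0 := by rw [← hq]; exact h0' _ _
  have p : ∀ a b c, g a b c = 0 → g a b c = 0 ∧ g a c b = 0 ∧ g b a c = 0 ∧ g b c a = 0 ∧
      g c a b = 0 ∧ g c b a = 0 := by
    intro a b c h
    refine ⟨h, by rw [h2]; exact h, by rw [h1]; exact h, by rw [h2, h1]; exact h,
      by rw [h1, h2]; exact h, by rw [h2, h1, h2]; exact h⟩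
  obtain ⟨a1, a2, a3, a4, a5, a6⟩ := p _ _ _ e012
  obtain ⟨b1, b2, b3, b4, b5, b6⟩ := p _ _ _ e103
  obtain ⟨c1, c2, c3, c4, c5, c6⟩ := p _ _ _ e203
  obtain ⟨d1, d2, d3, d4, d5, d6⟩ := p _ _ _ e312
  intro a b c
  by_cases hbc : b = c
  · subst hbc; exact h0 a b
  by_cases hab : a = b
  · subst hab; exact h0'' _ _
  by_cases hac : a = c
  · subst hac; exact h0' _ _
  fin_cases a <;> fin_cases b <;> first | exact absurd rfl hab | skip
  all_goals fin_cases c <;> first | exact absurd rfl hbc | exact absurd rfl hac | assumption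

/-- a symmetric function of three letters, zero unless the last two are dual, is zero -/
theorem g_zero' (g : Fin 4 → Fin 4 → Fin 4 → F) (h1 : ∀ a b c, g a b c = g b a c)
    (h2 : ∀ a b c, g a b c = g a c b) (h0 : ∀ a b c, c ≠ br b → g a b c = 0) :
    ∀ a b c, g a b c = 0 := by
  intro a b c
  by_cases hc : c = br b
  · by_cases ha : a = br b
    · rw [h1]
      apply h0
      rw [hc, ha, br_br]
      fin_cases b <;> decide
    · rw [h2, h1, h2]
      exact h0 _ _ _ ha
  · exact h0 _ _ _ hc

end alg

section base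

variable {F : Type} [Field F] {h : ℕ} [NeZero h]

theorem pw_sq [Fintype F] (hF : Fintype.card F = 2 ^ h) (y : Fin 4 → F) (d : ZMod h)
    (a : Fin 4) : pw y d a * pw y d a = pw y (d + 1) a := by
  simp only [pw]
  rw [← pow_two, ← pow_mul, ← pow_succ]
  rcases Nat.lt_or_ge (d.val + 1) h with hd | hd
  · have h1 : (1 : ZMod h).val = 1 := ZMod.val_one'' (by omega)
    rw [ZMod.val_add_of_lt (by rw [h1]; exact hd), h1]
  · have hlt := d.val_lt
    have hv : d.val + 1 = h := by omega
    have hd0 : d + 1 = 0 := by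
      have : ((d.val + 1 : ℕ) : ZMod h) = 0 := by rw [hv]; exact ZMod.natCast_self h
      rw [← this]
      push_cast
      rw [ZMod.natCast_zmod_val]
    rw [hv, hd0, ZMod.val_zero, pow_zero, pow_one, ← hF]
    exact FiniteField.pow_card (y a)

omit [NeZero h] in
theorem Qf_pow [CharP F 2] (y : Fin 4 → F) (d : ZMod h) :
    Qf y ^ (2 ^ d.val) = pw y d 0 * pw y d 3 + pw y d 1 * pw y d 2 := by
  simp only [pw, Qf]
  rw [add_pow_char_pow, mul_pow, mul_pow]

end base

section sums

variable {F : Type} [Field F] {h : ℕ} [NeZero h] {ι : Type}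

/-- four letters at digit 0 (two from `Qf`), one letter `u` at digit 1, two at every other digit -/
def Tf (s : Finset ι) (y : ι → Fin 4 → F) (u : Fin 4) (I J : W h) : F :=
  ∑ i ∈ s, Qf (y i) * pw (y i) (1 : ZMod h) u *
    ∏ k ∈ univ.erase (1 : ZMod h), (pw (y i) k (I k) * pw (y i) k (J k))

/-- digit `d` empty, one more letter `r` at digit `d + 1` -/
def Tg (s : Finset ι) (y : ι → Fin 4 → F) (d : ZMod h) (u r : Fin 4) (I J : W h) : F :=
  ∑ i ∈ s, Qf (y i) * pw (y i) (1 : ZMod h) u * pw (y i) (d + 1) r *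
    ∏ k ∈ (univ.erase (1 : ZMod h)).erase d, (pw (y i) k (I k) * pw (y i) k (J k))

variable (s : Finset ι) (y : ι → Fin 4 → F)

omit [NeZero h] in
/-- the product over the other digits does not see the letters at the digit which is left out -/
theorem prod_upd (A : Finset (ZMod h)) (d : ZMod h) (hd : d ∉ A) (I J : W h) (a b : Fin 4)
    (i : ι) :
    ∏ k ∈ A, (pw (y i) k (update I d a k) * pw (y i) k (update J d b k)) =
      ∏ k ∈ A, (pw (y i) k (I k) * pw (y i) k (J k)) := by
  refine Finset.prod_congr rfl fun k hk => ?_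
  have hkd : k ≠ d := fun e => hd (e ▸ hk)
  rw [update_of_ne hkd, update_of_ne hkd]

theorem Tf_split (d : ZMod h) (hd1 : d ≠ 1) (u : Fin 4) (I J : W h) :
    Tf s y u I J = ∑ i ∈ s, Qf (y i) * pw (y i) (1 : ZMod h) u *
      ((pw (y i) d (I d) * pw (y i) d (J d)) *
      ∏ k ∈ (univ.erase (1 : ZMod h)).erase d, (pw (y i) k (I k) * pw (y i) k (J k))) := by
  unfold Tf
  refine Finset.sum_congr rfl fun i _ => ?_
  rw [Finset.mul_prod_erase (univ.erase (1 : ZMod h))
    (fun k => pw (y i) k (I k) * pw (y i) k (J k)) (mem_erase.mpr ⟨hd1, mem_univ d⟩)]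

theorem Tf_upd (d : ZMod h) (hd1 : d ≠ 1) (u : Fin 4) (I J : W h) (a b : Fin 4) :
    Tf s y u (update I d a) (update J d b) = ∑ i ∈ s, Qf (y i) * pw (y i) (1 : ZMod h) u *
      ((pw (y i) d a * pw (y i) d b) *
      ∏ k ∈ (univ.erase (1 : ZMod h)).erase d, (pw (y i) k (I k) * pw (y i) k (J k))) := by
  rw [Tf_split s y d hd1]
  refine Finset.sum_congr rfl fun i _ => ?_
  rw [update_self, update_self, prod_upd y _ d (notMem_erase d _)]

theorem Tg_eq [Fintype F] (hF : Fintype.card F = 2 ^ h) (d : ZMod h) (hd1 : d ≠ 1)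
    (u r : Fin 4) (I J : W h) :
    Tg s y d u r I J = Tf s y u (update I d r) (update J d r) := by
  rw [Tf_upd s y d hd1]
  unfold Tg
  refine Finset.sum_congr rfl fun i _ => ?_
  rw [pw_sq hF]
  ring

/-- the three letters at digit `d + 1` -/
theorem Tg_split (d e : ZMod h) (he : e = d + 1) (hed : e ≠ d) (he1 : e ≠ 1) (u a b c : Fin 4)
    (I J : W h) :
    Tg s y d u a (update I e b) (update J e c) =
      ∑ i ∈ s, Qf (y i) * pw (y i) (1 : ZMod h) u *
      ((pw (y i) e a * pw (y i) e b * pw (y i) e c) *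
      ∏ k ∈ ((univ.erase (1 : ZMod h)).erase d).erase e,
        (pw (y i) k (I k) * pw (y i) k (J k))) := by
  unfold Tg
  refine Finset.sum_congr rfl fun i _ => ?_
  rw [← Finset.mul_prod_erase ((univ.erase (1 : ZMod h)).erase d)
    (fun k => pw (y i) k (update I e b k) * pw (y i) k (update J e c k))
    (mem_erase.mpr ⟨hed, mem_erase.mpr ⟨he1, mem_univ e⟩⟩)]
  rw [update_self, update_self, prod_upd y _ e (notMem_erase e _), ← he]
  ring

/-- all slots -/
theorem slots_raw [Fintype F] [CharP F 2] (hF : Fintype.card F = 2 ^ h)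
    (hal : ∀ (u : Fin 4) (I J : W h), J 0 ≠ br (I 0) → Tf s y u I J = 0)
    (hQ : ∀ (d : ZMod h) (I : W h), ∃ c : Fin 4 → W h → F, ∀ i ∈ s,
      Qf (y i) ^ (2 ^ d.val) * ∏ k ∈ (univ.erase d).erase (d + 1), pw (y i) k (I k) =
        ∑ v, ∑ J, c v J *
          (pw (y i) (d + 1) v * ∏ k ∈ (univ.erase d).erase (d + 1), pw (y i) k (J k))) :
    ∀ n : ℕ, ∀ d : ZMod h, h - d.val = n → d ≠ 0 → d ≠ 1 →
      (∀ u r I J, Tg s y d u r I J = 0) ∧ (∀ u I J, I d = J d → Tf s y u I J = 0) ∧
      (∀ u I J, Tf s y u (update I d 0) (update J d 3) =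
        Tf s y u (update I d 1) (update J d 2)) := by
  intro n
  induction n using Nat.strong_induction_on with
  | _ n ih =>
  intro d hn hd0 hd1
  have hdl := d.val_lt
  have hh : h ≠ 1 := by
    rintro rfl
    exact hd0 (Subsingleton.elim _ _)
  have hone : (1 : ZMod h).val = 1 := ZMod.val_one'' hh
  have hed : d + 1 ≠ d := by
    intro e
    have h10 : (1 : ZMod h) = 0 := by simpa using e
    rw [h10, ZMod.val_zero] at hone
    omega
  have he1 : d + 1 ≠ 1 := by
    intro e
    exact hd0 (by simpa using e)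
  -- digit `d` empty
  have hE : ∀ u r I J, Tg s y d u r I J = 0 := by
    intro u r I J
    have hg := Tg_split s y d (d + 1) rfl hed he1 u
    have key : ∀ a b c, Tg s y d u a (update I (d + 1) b) (update J (d + 1) c) = 0 := by
      have h1 : ∀ a b c, Tg s y d u a (update I (d + 1) b) (update J (d + 1) c) =
          Tg s y d u b (update I (d + 1) a) (update J (d + 1) c) := by
        intro a b c
        rw [hg, hg]
        exact Finset.sum_congr rfl fun i _ => by ring
      have h2 : ∀ a b c, Tg s y d u a (update I (d + 1) b) (update J (d + 1) c) =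
          Tg s y d u a (update I (d + 1) c) (update J (d + 1) b) := by
        intro a b c
        rw [hg, hg]
        exact Finset.sum_congr rfl fun i _ => by ring
      by_cases he0 : d + 1 = 0
      · refine g_zero' _ h1 h2 ?_
        intro a b c hc
        rw [Tg_eq s y hF d hd1]
        apply hal
        have hd00 : (0 : ZMod h) ≠ d := fun e => hd0 e.symm
        rw [update_of_ne hd00, update_of_ne hd00, he0, update_self, update_self]
        exact hc
      · have hlt : d.val + 1 < h := by
          by_contra hcon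
          apply he0
          have hv : d.val + 1 = h := by omega
          have : ((d.val + 1 : ℕ) : ZMod h) = 0 := by rw [hv]; exact ZMod.natCast_self h
          rw [← this]
          push_cast
          rw [ZMod.natCast_zmod_val]
        have hv : (d + 1).val = d.val + 1 := by
          rw [ZMod.val_add_of_lt (by rw [hone]; exact hlt), hone]
        obtain ⟨_, ihA, ihQ⟩ := ih (h - (d + 1).val) (by omega) (d + 1) rfl he0 he1
        refine g_zero _ h1 h2 ?_ ?_
        · intro a b
          rw [Tg_eq s y hF d hd1]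
          apply ihA
          rw [update_of_ne hed, update_of_ne hed, update_self, update_self]
        · intro a
          rw [Tg_eq s y hF d hd1, Tg_eq s y hF d hd1, update_comm hed, update_comm hed,
            update_comm hed, update_comm hed]
          exact ihQ _ _ _
    have := key r (I (d + 1)) (J (d + 1))
    rwa [update_eq_self, update_eq_self] at this
  refine ⟨hE, ?_, ?_⟩
  · intro u I J hIJ
    have h0 := hE u (I d) I J
    rw [Tg_eq s y hF d hd1] at h0
    rw [update_eq_self] at h0
    rw [hIJ, update_eq_self] at h0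
    exact h0
  · intro u I J
    have hA' : ((univ.erase d).erase (d + 1)).erase (1 : ZMod h) =
        ((univ.erase (1 : ZMod h)).erase d).erase (d + 1) := by
      rw [erase_right_comm, erase_right_comm (a := d)]
    have hp1 : ∀ (K : W h) (i : ι), ∏ k ∈ (univ.erase d).erase (d + 1), pw (y i) k (K k) =
        pw (y i) (1 : ZMod h) (K 1) *
          ∏ k ∈ ((univ.erase (1 : ZMod h)).erase d).erase (d + 1), pw (y i) k (K k) := by
      intro K i
      rw [← hA', Finset.mul_prod_erase ((univ.erase d).erase (d + 1))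
        (fun k => pw (y i) k (K k))
        (mem_erase.mpr ⟨he1.symm, mem_erase.mpr ⟨hd1.symm, mem_univ _⟩⟩)]
    have hp2 : ∀ (K : W h) (i : ι), ∏ k ∈ (univ.erase (1 : ZMod h)).erase d, pw (y i) k (K k) =
        pw (y i) (d + 1) (K (d + 1)) *
          ∏ k ∈ ((univ.erase (1 : ZMod h)).erase d).erase (d + 1), pw (y i) k (K k) := by
      intro K i
      rw [Finset.mul_prod_erase ((univ.erase (1 : ZMod h)).erase d)
        (fun k => pw (y i) k (K k)) (mem_erase.mpr ⟨hed, mem_erase.mpr ⟨he1, mem_univ _⟩⟩)]
    obtain ⟨c, hc⟩ := hQ d (update I 1 u)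
    have hint : ∀ i ∈ s, Qf (y i) * pw (y i) (1 : ZMod h) u *
        ((pw (y i) d 0 * pw (y i) d 3 + pw (y i) d 1 * pw (y i) d 2) *
        ∏ k ∈ (univ.erase (1 : ZMod h)).erase d, (pw (y i) k (I k) * pw (y i) k (J k))) =
        ∑ v, ∑ K, c v K * (Qf (y i) * pw (y i) (1 : ZMod h) (K 1) * pw (y i) (d + 1) v *
          ∏ k ∈ (univ.erase (1 : ZMod h)).erase d,
            (pw (y i) k (update K (d + 1) (I (d + 1)) k) * pw (y i) k (J k))) := by
      intro i hi
      have h1 := hc i hi
      rw [hp1, update_self] at h1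
      have h2 : ∏ k ∈ ((univ.erase (1 : ZMod h)).erase d).erase (d + 1),
          pw (y i) k (update I 1 u k) =
          ∏ k ∈ ((univ.erase (1 : ZMod h)).erase d).erase (d + 1), pw (y i) k (I k) := by
        refine Finset.prod_congr rfl fun k hk => ?_
        have hk1 : k ≠ 1 := fun e => by
          rw [e] at hk; simp at hk
        rw [update_of_ne hk1]
      rw [h2] at h1
      rw [← Qf_pow, Finset.prod_mul_distrib, hp2]
      have h3 : ∀ K : W h, ∏ k ∈ (univ.erase (1 : ZMod h)).erase d,
            (pw (y i) k (update K (d + 1) (I (d + 1)) k) * pw (y i) k (J k)) =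
          pw (y i) (d + 1) (I (d + 1)) *
          (∏ k ∈ ((univ.erase (1 : ZMod h)).erase d).erase (d + 1), pw (y i) k (K k)) *
            ∏ k ∈ (univ.erase (1 : ZMod h)).erase d, pw (y i) k (J k) := by
        intro K
        rw [Finset.prod_mul_distrib, hp2, update_self]
        congr 2
        refine Finset.prod_congr rfl fun k hk => ?_
        rw [update_of_ne (ne_of_mem_erase hk)]
      calc Qf (y i) * pw (y i) 1 u * (Qf (y i) ^ 2 ^ d.val *
            ((pw (y i) (d + 1) (I (d + 1)) *
              ∏ k ∈ ((univ.erase (1 : ZMod h)).erase d).erase (d + 1), pw (y i) k (I k)) *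
            ∏ k ∈ (univ.erase (1 : ZMod h)).erase d, pw (y i) k (J k)))
          = Qf (y i) * (Qf (y i) ^ 2 ^ d.val * (pw (y i) 1 u *
              ∏ k ∈ ((univ.erase (1 : ZMod h)).erase d).erase (d + 1), pw (y i) k (I k))) *
            pw (y i) (d + 1) (I (d + 1)) *
            ∏ k ∈ (univ.erase (1 : ZMod h)).erase d, pw (y i) k (J k) := by ring
        _ = _ := by
          rw [h1, Finset.mul_sum, Finset.sum_mul, Finset.sum_mul]
          refine Finset.sum_congr rfl fun v _ => ?_
          rw [Finset.mul_sum, Finset.sum_mul, Finset.sum_mul]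
          refine Finset.sum_congr rfl fun K _ => ?_
          rw [h3, hp1]
          ring
    have hsum : Tf s y u (update I d 0) (update J d 3) +
        Tf s y u (update I d 1) (update J d 2) = 0 := by
      rw [Tf_upd s y d hd1, Tf_upd s y d hd1, ← Finset.sum_add_distrib]
      have h4 : ∀ i ∈ s, (Qf (y i) * pw (y i) (1 : ZMod h) u *
          ((pw (y i) d 0 * pw (y i) d 3) *
          ∏ k ∈ (univ.erase (1 : ZMod h)).erase d, (pw (y i) k (I k) * pw (y i) k (J k))) +
          Qf (y i) * pw (y i) (1 : ZMod h) u *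
          ((pw (y i) d 1 * pw (y i) d 2) *
          ∏ k ∈ (univ.erase (1 : ZMod h)).erase d, (pw (y i) k (I k) * pw (y i) k (J k)))) =
          ∑ v, ∑ K, c v K * (Qf (y i) * pw (y i) (1 : ZMod h) (K 1) * pw (y i) (d + 1) v *
          ∏ k ∈ (univ.erase (1 : ZMod h)).erase d,
            (pw (y i) k (update K (d + 1) (I (d + 1)) k) * pw (y i) k (J k))) := by
        intro i hi
        rw [← hint i hi]
        ring
      rw [Finset.sum_congr rfl h4, Finset.sum_comm]
      refine Finset.sum_eq_zero fun v _ => ?_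
      rw [Finset.sum_comm]
      refine Finset.sum_eq_zero fun K _ => ?_
      rw [← Finset.mul_sum]
      have := hE (K 1) v (update K (d + 1) (I (d + 1))) J
      unfold Tg at this
      rw [this, mul_zero]
    exact CharTwo.add_eq_zero.mp hsum

end sums

end Pool.OVS
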