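import Mathlib
import Pool.Agent.H41.OVO.Stmt
import Pool.Agent.H29.OVS.Slots

/-!
# Ovoids: matrix entries of operators trivial at some digits; a function identity without the letters
at these digits
-/

set_option autoImplicit false

namespace Pool.OVS

open Finset Function Pool.OVE

section ker

variable {F : Type} [Field F] {h : ℕ}

theorem rho_unit (m : ZMod h) (p q : Fin 4) (φ : E F h) (w : W h) :
    rho m (Matrix.single p q 1) φ w = if w m = p then φ (update w m q) else 0 := by
  rw [rho_apply]
  by_cases hp : w m = p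
  · rw [if_pos hp, Finset.sum_eq_single q]
    · simp [hp]
    · intro j _ hj
      simp [Ne.symm hj]
    · simp
  · rw [if_neg hp]
    exact Finset.sum_eq_zero fun j _ => by simp [Ne.symm hp]

/-- `T` is trivial at digit `m` -/
def Trm (m : ZMod h) (T : Module.End F (E F h)) : Prop :=
  ∀ (M : Matrix (Fin 4) (Fin 4) F) (φ : E F h), T (rho m M φ) = rho m M (T φ)

variable [NeZero h]

/-- the basis word -/
def dl (F : Type) [Field F] (v : W h) : E F h := Pi.single v 1

theorem dl_apply (v w : W h) : dl F v w = if w = v then 1 else 0 := by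
  unfold dl
  rw [Pi.single_apply]

theorem rho_dl (m : ZMod h) (p : Fin 4) (v : W h) :
    rho m (Matrix.single p (v m) 1) (dl F v) = dl F (update v m p) := by
  funext w
  rw [rho_unit, dl_apply, dl_apply]
  by_cases hw : w m = p
  · rw [if_pos hw]
    by_cases hu : update w m (v m) = v
    · rw [if_pos hu, if_pos]
      rw [← hu, update_idem, ← hw, update_eq_self]
    · rw [if_neg hu, if_neg]
      intro e
      apply hu
      rw [e, update_idem, update_eq_self]
  · rw [if_neg hw, if_neg]
    intro e
    apply hw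
    rw [e, update_self]

/-- matrix entries of an operator trivial at `m` -/
theorem ker_apply {m : ZMod h} {T : Module.End F (E F h)} (hT : Trm m T) (v w : W h)
    (b : Fin 4) : T (dl F (update v m b)) w = if w m = b then T (dl F v) (update w m (v m)) else 0 := by
  rw [← rho_dl, hT, rho_unit]

theorem ker_zero {m : ZMod h} {T : Module.End F (E F h)} (hT : Trm m T) (v w : W h)
    (hvw : w m ≠ v m) : T (dl F v) w = 0 := by
  have := ker_apply hT v w (v m)
  rw [update_eq_self, if_neg hvw] at this
  exact this

/-- exchange of two letters at one digit -/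
def ex (m : ZMod h) (a : Fin 4) (w : W h) : W h := update w m (Equiv.swap 0 a (w m))

theorem ker_ex {m : ZMod h} {T : Module.End F (E F h)} (hT : Trm m T) (a : Fin 4) (v w : W h) :
    T (dl F (ex m a v)) (ex m a w) = T (dl F v) w := by
  unfold ex
  rw [ker_apply hT, update_self, update_idem]
  by_cases hvw : w m = v m
  · rw [if_pos (by rw [hvw]), ← hvw, update_eq_self]
  · rw [if_neg (fun e => hvw ((Equiv.swap 0 a).injective e)), ker_zero hT v w hvw]

/-- exchange of two letters at the digits of `D` -/
def exD (D : Finset (ZMod h)) (a : Fin 4) (w : W h) : W h :=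
  fun k => if k ∈ D then Equiv.swap 0 a (w k) else w k

omit [NeZero h] in
theorem exD_exD (D : Finset (ZMod h)) (a : Fin 4) (w : W h) : exD D a (exD D a w) = w := by
  funext k
  unfold exD
  by_cases hk : k ∈ D
  · rw [if_pos hk, if_pos hk, Equiv.swap_apply_self]
  · rw [if_neg hk, if_neg hk]

def exE (D : Finset (ZMod h)) (a : Fin 4) : W h ≃ W h :=
  ⟨exD D a, exD D a, exD_exD D a, exD_exD D a⟩

theorem ker_exD (D : Finset (ZMod h)) {T : Module.End F (E F h)} (hT : ∀ m ∈ D, Trm m T)
    (a : Fin 4) (v w : W h) : T (dl F (exD D a v)) (exD D a w) = T (dl F v) w := by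
  induction D using Finset.induction_on generalizing v w with
  | empty =>
    have e : ∀ u : W h, exD ∅ a u = u := fun u => by funext k; simp [exD]
    rw [e, e]
  | insert m D hm ih =>
    have e : ∀ u : W h, exD (insert m D) a u = ex m a (exD D a u) := by
      intro u
      funext k
      unfold ex
      by_cases hk : k = m
      · subst hk
        rw [update_self]
        simp [exD, hm]
      · rw [update_of_ne hk]
        simp [exD, hk]
    rw [e, e, ker_ex (hT m (mem_insert_self m D))]
    exact ih (fun k hk => hT k (mem_insert_of_mem hk)) v w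

theorem bf_dl (v : W h) (ψ : E F h) : bf (dl F v) ψ = ψ (wbr v) := by
  unfold bf
  rw [Finset.sum_eq_single v]
  · rw [dl_apply, if_pos rfl, one_mul]
  · intro w _ hw
    rw [dl_apply, if_neg hw, zero_mul]
  · simp

/-- the letters at `D` are all `x` -/
def st (D : Finset (ZMod h)) (v : W h) : W h := fun k => if k ∈ D then 0 else v k

/-- removal of the letters at the digits of `D` from a function identity -/
theorem remove (D : Finset (ZMod h)) (T : Fin 4 → Module.End F (E F h))
    (hT : ∀ i, ∀ m ∈ D, Trm m (T i)) (y : Fin 4 → F) (hy : y ≠ 0) (α : F) (β : Fin 4 → F)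
    (h2 : ∀ φ : E F h, α * bf φ (hat y) = ∑ i, β i * bf (T i φ) (hat y)) (v : W h) :
    α * ∏ k ∈ Dᶜ, pw y k (br (v k)) =
      ∑ i, β i * ∑ w : W h, T i (dl F (st D v)) w * ∏ k ∈ Dᶜ, pw y k (br (w k)) := by
  obtain ⟨a, ha⟩ : ∃ a, y a ≠ 0 := by
    by_contra hcon
    push Not at hcon
    exact hy (funext hcon)
  set c : F := ∏ k ∈ D, pw y k a with hc
  have hc0 : c ≠ 0 := Finset.prod_ne_zero_iff.mpr fun k _ => pow_ne_zero _ ha
  -- value of the exchanged word
  have hv : ∀ w : W h, (∀ k ∈ D, w k = 0) →
      hat y (wbr (exD D (br a) w)) = c * ∏ k ∈ Dᶜ, pw y k (br (w k)) := by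
    intro w hw
    unfold hat pr
    rw [← Finset.prod_mul_prod_compl D]
    congr 1
    · refine Finset.prod_congr rfl fun k hk => ?_
      simp only [wbr, exD, if_pos hk, hw k hk, Equiv.swap_apply_left, br_br]
    · refine Finset.prod_congr rfl fun k hk => ?_
      simp only [wbr, exD, if_neg (mem_compl.mp hk)]
  have hst : ∀ k ∈ D, st D v k = 0 := fun k hk => by simp [st, hk]
  have h3 := h2 (dl F (exD D (br a) (st D v)))
  rw [bf_dl, hv _ hst] at h3
  have h4 : ∏ k ∈ Dᶜ, pw y k (br (st D v k)) = ∏ k ∈ Dᶜ, pw y k (br (v k)) := by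
    refine Finset.prod_congr rfl fun k hk => ?_
    simp only [st, if_neg (mem_compl.mp hk)]
  rw [h4] at h3
  have h5 : ∀ i, bf (T i (dl F (exD D (br a) (st D v)))) (hat y) =
      c * ∑ w : W h, T i (dl F (st D v)) w * ∏ k ∈ Dᶜ, pw y k (br (w k)) := by
    intro i
    unfold bf
    rw [← Equiv.sum_comp (exE D (br a)), Finset.mul_sum]
    refine Finset.sum_congr rfl fun w _ => ?_
    have e1 : (exE D (br a)) w = exD D (br a) w := rfl
    rw [e1, ker_exD D (hT i)]
    by_cases hw : ∀ k ∈ D, w k = 0
    · rw [hv w hw]; ring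
    · push Not at hw
      obtain ⟨k, hk, hwk⟩ := hw
      rw [ker_zero (hT i k hk) (st D v) w (by rw [hst k hk]; exact hwk)]
      ring
  have h6 : c * (α * ∏ k ∈ Dᶜ, pw y k (br (v k))) =
      c * ∑ i, β i * ∑ w : W h, T i (dl F (st D v)) w * ∏ k ∈ Dᶜ, pw y k (br (w k)) := by
    rw [Finset.mul_sum]
    calc c * (α * ∏ k ∈ Dᶜ, pw y k (br (v k)))
        = α * (c * ∏ k ∈ Dᶜ, pw y k (br (v k))) := by ring
      _ = _ := by
        rw [h3]
        refine Finset.sum_congr rfl fun i _ => ?_
        rw [h5]; ring
  exact mul_left_cancel₀ hc0 h6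

end ker

end Pool.OVS
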