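import Mathlib
import Pool.Agent.H29.OVS.Ker

/-!
# Ovoids: the slot expansion (I4) follows from (I2) and (I3)
-/

set_option autoImplicit false

namespace Pool.OVS

open Finset Function Pool.OVE

section fincheck

variable {F : Type} [Field F]

theorem fin_check (M t : Fin 4 → Fin 4 → F) (hM : ∀ a c, M a c = t (br c) a)
    (h0 : ∀ a, t a a = 0) (hs : ∀ a c, t a c = t c a) (hq : t 0 3 = t 1 2) (a c : Fin 4) :
    M a c = ∑ b : Fin 5, (J b : Matrix (Fin 4) (Fin 4) F) a c * M (pos b).1 (pos b).2 := by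
  have b0 : br 0 = 3 := rfl
  have b1 : br 1 = 2 := rfl
  have b2 : br 2 = 1 := rfl
  have b3 : br 3 = 0 := rfl
  have h30 : t 3 0 = t 1 2 := by rw [hs, hq]
  have h21 : t 2 1 = t 1 2 := hs _ _
  rw [Fin.sum_univ_five]
  simp only [hM]
  fin_cases a <;> fin_cases c <;>
    simp [J, pos, b0, b1, b2, b3, h0, h30, h21, hq, hs 1 0, hs 2 0, hs 3 1, hs 3 2]

end fincheck

section ext

variable {F : Type} [Field F] {h : ℕ} [NeZero h]

theorem rho_dl_ne (m : ZMod h) (p q : Fin 4) (v : W h) (hq : v m ≠ q) :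
    rho m (Matrix.single p q 1) (dl F v) = 0 := by
  funext w
  rw [rho_unit, dl_apply]
  by_cases hw : w m = p
  · rw [if_pos hw, if_neg]
    · rfl
    · intro e
      apply hq
      rw [← e, update_self]
  · rw [if_neg hw]; rfl

theorem ext_entry (k : ZMod h) (p p' : Fin 4) (T : Module.End F (E F h)) (v w : W h) :
    Pool.OVE.ext k p p' T (dl F v) w =
      if w k = v k then T (dl F (update v k p')) (update w k p) else 0 := by
  unfold Pool.OVE.ext
  simp only [LinearMap.sum_apply, Finset.sum_apply, Module.End.mul_apply, rho_unit]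
  rw [Finset.sum_ite_eq]
  simp only [mem_univ, if_true]
  by_cases hw : w k = v k
  · rw [if_pos hw, hw, rho_dl]
  · rw [if_neg hw, rho_dl_ne _ _ _ _ (Ne.symm hw), map_zero]
    rfl

theorem slot_entry (k : ZMod h) (T : Module.End F (E F h)) (v w : W h) :
    (∑ b : Fin 5, rho k (J b) * co k b T : Module.End F (E F h)) (dl F v) w =
      ∑ b : Fin 5, (J b : Matrix (Fin 4) (Fin 4) F) (w k) (v k) *
        T (dl F (update v k (pos b).2)) (update w k (pos b).1) := by
  simp only [LinearMap.sum_apply, Finset.sum_apply, Module.End.mul_apply]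
  refine Finset.sum_congr rfl fun b _ => ?_
  rw [rho_apply]
  unfold co
  simp only [ext_entry, update_self, update_idem]
  rw [Finset.sum_eq_single (v k)]
  · rw [if_pos rfl]
  · intro j _ hj
    rw [if_neg hj, mul_zero]
  · simp

end ext

section main

variable {F : Type} [Field F] [Fintype F] {h : ℕ} [NeZero h]

theorem pw_pow (hF : Fintype.card F = 2 ^ h) (y : Fin 4 → F) (k : ZMod h) (a : Fin 4) (n : ℕ) :
    pw y k a ^ (2 ^ n) = pw y (k + (n : ZMod h)) a := by
  induction n with
  | zero => simp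
  | succ n ih =>
    rw [pow_succ, pow_mul, ih, pow_two, pw_sq hF]
    congr 1
    push_cast
    ring

/-- the word identity with the digits 0, 1 left out, raised to the power `2 ^ d` -/
theorem hQ_of [CharP F 2] (hF : Fintype.card F = 2 ^ h) (Om : Finset (Fin 4 → F))
    (hy : ∀ y ∈ Om, y ≠ 0) (Θ : Fin 4 → Module.End F (E F h)) (t0 : Trv Θ 0) (t1 : Trv Θ 1)
    (h2 : ∀ y ∈ Om, ∀ φ : E F h,
      Qf y * bf φ (hat y) = ∑ i, pw y (1 : ZMod h) i * bf (Θ i φ) (hat y))
    (d : ZMod h) (I : W h) : ∃ c : Fin 4 → W h → F, ∀ y ∈ Om,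
      Qf y ^ (2 ^ d.val) * ∏ k ∈ (univ.erase d).erase (d + 1), pw y k (I k) =
        ∑ v, ∑ J, c v J *
          (pw y (d + 1) v * ∏ k ∈ (univ.erase d).erase (d + 1), pw y k (J k)) := by
  set v0 : W h := st {0, 1} (fun k => br (I (k + d))) with hv0
  refine ⟨fun i J => (Θ i (dl F v0) (fun k => br (J (k + d)))) ^ (2 ^ d.val), ?_⟩
  intro y hyO
  have hT : ∀ i, ∀ m ∈ ({0, 1} : Finset (ZMod h)), Trm m (Θ i) := by
    intro i m hm
    rcases Finset.mem_insert.mp hm with rfl | hm
    · exact t0 i
    · rw [Finset.mem_singleton.mp hm]; exact t1 i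
  have h4 := remove {0, 1} Θ hT y (hy y hyO) (Qf y) (fun i => pw y (1 : ZMod h) i) (h2 y hyO)
    (fun k => br (I (k + d)))
  -- the shift
  have hsh : ∀ w : W h, (∏ k ∈ ({0, 1} : Finset (ZMod h))ᶜ, pw y k (br (w k))) ^ (2 ^ d.val) =
      ∏ k ∈ (univ.erase d).erase (d + 1), pw y k (br (w (k - d))) := by
    intro w
    rw [← Finset.prod_pow]
    refine Finset.prod_equiv (Equiv.addRight d) ?_ ?_
    · intro k
      simp only [mem_compl, Finset.mem_insert, Finset.mem_singleton, Equiv.coe_addRight, mem_erase,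
        mem_univ, and_true]
      constructor
      · intro hk
        push Not at hk
        refine ⟨fun e => hk.2 ?_, fun e => hk.1 ?_⟩
        · have : k + d = 1 + d := by rw [e]; ring
          exact add_right_cancel this
        · have : k + d = 0 + d := by rw [e]; ring
          exact add_right_cancel this
      · intro hk
        push Not
        refine ⟨fun e => hk.2 ?_, fun e => hk.1 ?_⟩
        · rw [e]; ring
        · rw [e]; ring
    · intro k _
      rw [pw_pow hF, ZMod.natCast_zmod_val]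
      simp
  have h5 := congrArg (fun x : F => x ^ (2 ^ d.val)) h4
  simp only [mul_pow] at h5
  rw [hsh] at h5
  simp only [sub_add_cancel, br_br] at h5
  rw [h5, sum_pow_char_pow]
  refine Finset.sum_congr rfl fun i _ => ?_
  rw [mul_pow, sum_pow_char_pow, pw_pow hF, ZMod.natCast_zmod_val, add_comm (1 : ZMod h) d,
    Finset.mul_sum]
  let e : W h ≃ W h := ⟨fun J k => br (J (k + d)), fun w k => br (w (k - d)),
    fun J => by funext k; simp, fun w => by funext k; simp⟩
  rw [← Equiv.sum_comp e]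
  refine Finset.sum_congr rfl fun J _ => ?_
  rw [mul_pow, hsh]
  have e1 : ∀ k, br (e J (k - d)) = J k := by
    intro k
    change br (br (J (k - d + d))) = J k
    rw [br_br, sub_add_cancel]
  simp only [e1]
  change pw y (d + 1) i * ((Θ i (dl F v0) (fun k => br (J (k + d)))) ^ 2 ^ d.val * _) = _
  ring

omit [Fintype F] in
/-- the value `Tf` is a matrix entry -/
theorem Tf_entry (Om : Finset (Fin 4 → F)) (hy : ∀ y ∈ Om, y ≠ 0)
    (Θ : Fin 4 → Module.End F (E F h)) (t1 : Trv Θ 1)
    (pl : ∀ φ ψ : E F h, ∑ y ∈ Om, bf φ (hat y) * bf ψ (hat y) = bf φ ψ)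
    (h2 : ∀ y ∈ Om, ∀ φ : E F h,
      Qf y * bf φ (hat y) = ∑ i, pw y (1 : ZMod h) i * bf (Θ i φ) (hat y))
    (u : Fin 4) (I J : W h) :
    Tf Om (fun y => y) u I J = Θ (br u) (dl F (update (wbr I) 1 0)) (update J 1 0) := by
  have hT : ∀ i, ∀ m ∈ ({1} : Finset (ZMod h)), Trm m (Θ i) := by
    intro i m hm
    rw [Finset.mem_singleton.mp hm]; exact t1 i
  have hst : st {1} (wbr I) = update (wbr I) 1 0 := by
    funext k
    by_cases hk : k = 1
    · subst hk; simp [st]
    · simp [st, hk]
  have hcompl : ({1} : Finset (ZMod h))ᶜ = univ.erase 1 := by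
    ext k; simp
  -- words with one letter at every digit
  have hw : ∀ (y : Fin 4 → F) (w : W h) (i : Fin 4), hat y (update w 1 i) =
      pw y (1 : ZMod h) i * ∏ k ∈ univ.erase (1 : ZMod h), pw y k (w k) := by
    intro y w i
    unfold hat pr
    rw [← Finset.mul_prod_erase univ _ (mem_univ (1 : ZMod h)), update_self]
    congr 1
    refine Finset.prod_congr rfl fun k hk => ?_
    rw [update_of_ne (ne_of_mem_erase hk)]
  have h5 : ∀ y ∈ Om, Qf y * pw y (1 : ZMod h) u *
      ∏ k ∈ univ.erase (1 : ZMod h), (pw y k (I k) * pw y k (J k)) =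
      ∑ i, ∑ w : W h, Θ i (dl F (update (wbr I) 1 0)) w *
        (bf (dl F (wbr (update (wbr w) 1 i))) (hat y) *
          bf (dl F (wbr (update J 1 u))) (hat y)) := by
    intro y hyO
    have h4 := remove {1} Θ hT y (hy y hyO) (Qf y) (fun i => pw y (1 : ZMod h) i) (h2 y hyO)
      (wbr I)
    rw [hst, hcompl] at h4
    have e1 : ∀ k, br (wbr I k) = I k := fun k => br_br (I k)
    simp only [e1] at h4
    calc Qf y * pw y (1 : ZMod h) u *
        ∏ k ∈ univ.erase (1 : ZMod h), (pw y k (I k) * pw y k (J k))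
        = (Qf y * ∏ k ∈ univ.erase (1 : ZMod h), pw y k (I k)) *
          (pw y (1 : ZMod h) u * ∏ k ∈ univ.erase (1 : ZMod h), pw y k (J k)) := by
          rw [Finset.prod_mul_distrib]; ring
      _ = _ := by
          rw [h4, ← hw, Finset.sum_mul]
          refine Finset.sum_congr rfl fun i _ => ?_
          rw [Finset.mul_sum, Finset.sum_mul]
          refine Finset.sum_congr rfl fun w _ => ?_
          rw [bf_dl, bf_dl, wbr_wbr, wbr_wbr, hw y (wbr w) i]
          have e2 : ∀ k, wbr w k = br (w k) := fun k => rfl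
          simp only [e2]
          ring
  unfold Tf
  rw [Finset.sum_congr rfl h5, Finset.sum_comm]
  have h6 : ∀ i, (∑ y ∈ Om, ∑ w : W h, Θ i (dl F (update (wbr I) 1 0)) w *
        (bf (dl F (wbr (update (wbr w) 1 i))) (hat y) *
          bf (dl F (wbr (update J 1 u))) (hat y))) =
      ∑ w : W h, Θ i (dl F (update (wbr I) 1 0)) w *
        (if update (wbr w) 1 i = wbr (update J 1 u) then 1 else 0) := by
    intro i
    rw [Finset.sum_comm]
    refine Finset.sum_congr rfl fun w _ => ?_
    rw [← Finset.mul_sum, pl, bf_dl, dl_apply, wbr_wbr]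
  simp only [h6]
  rw [Finset.sum_eq_single (br u)]
  · rw [Finset.sum_eq_single (update J 1 0)]
    · rw [if_pos, mul_one]
      rw [wbr_update, update_idem, wbr_update]
    · intro w _ hne
      by_cases hw0 : w 1 = 0
      · rw [if_neg, mul_zero]
        intro e
        apply hne
        funext k
        by_cases hk : k = 1
        · subst hk; rw [hw0, update_self]
        · have := congrFun e k
          rw [update_of_ne hk] at this
          have e3 := congrArg br this
          simp only [wbr, br_br] at e3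
          rw [e3, update_of_ne hk, update_of_ne hk]
      · rw [ker_zero (t1 (br u)) _ _ (by rw [update_self]; exact hw0), zero_mul]
    · simp
  · intro i _ hi
    refine Finset.sum_eq_zero fun w _ => ?_
    rw [if_neg, mul_zero]
    intro e
    apply hi
    have := congrFun e 1
    rw [update_self, wbr_update, update_self] at this
    exact this
  · simp

/-- **(I4)**: the slot expansion at every digit other than 0, 1 -/
theorem slot_of [CharP F 2] (hq : Fintype.card F = 2 ^ h) (h3 : 3 ≤ h)
    (Om : Finset (Fin 4 → F)) (hy : ∀ y ∈ Om, y ≠ 0) (Θ : Fin 4 → Module.End F (E F h))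
    (pl : ∀ φ ψ : E F h, ∑ y ∈ Om, bf φ (hat y) * bf ψ (hat y) = bf φ ψ)
    (sa : ∀ i (φ ψ : E F h), bf (Θ i φ) ψ = bf φ (Θ i ψ))
    (t0 : Trv Θ 0) (t1 : Trv Θ 1)
    (e5 : ∀ y ∈ Om, ∑ i, (y i) ^ 2 • Θ i (hat y) = Qf y • hat y) :
    ∀ k : ZMod h, k ≠ 0 → k ≠ 1 → ∀ i, Θ i = ∑ b : Fin 5, rho k (J b) * co k b (Θ i) := by
  have hone : (1 : ZMod h).val = 1 := ZMod.val_one'' (by omega)
  have h10 : (1 : ZMod h) ≠ 0 := by
    intro e
    rw [e, ZMod.val_zero] at hone
    omega
  have h2 : ∀ y ∈ Om, ∀ φ : E F h,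
      Qf y * bf φ (hat y) = ∑ i, pw y (1 : ZMod h) i * bf (Θ i φ) (hat y) := by
    intro y hyO φ
    have hlin : ∀ (ψ : E F h), bf φ ψ = ∑ w : W h, φ w * ψ (wbr w) := fun ψ => rfl
    have e1 : bf φ (Qf y • hat y) = Qf y * bf φ (hat y) := by
      rw [hlin, hlin, Finset.mul_sum]
      refine Finset.sum_congr rfl fun w _ => ?_
      rw [Pi.smul_apply, smul_eq_mul]; ring
    rw [← e1, ← e5 y hyO, hlin]
    simp only [Finset.sum_apply, Pi.smul_apply, smul_eq_mul, Finset.mul_sum]
    rw [Finset.sum_comm]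
    refine Finset.sum_congr rfl fun i _ => ?_
    rw [sa, hlin, Finset.mul_sum]
    refine Finset.sum_congr rfl fun w _ => ?_
    simp only [pw, hone, pow_one]
    ring
  have hTf := Tf_entry Om hy Θ t1 pl h2
  have hal : ∀ (u : Fin 4) (I J : W h), J 0 ≠ br (I 0) → Tf Om (fun y => y) u I J = 0 := by
    intro u I J hIJ
    rw [hTf]
    apply ker_zero (t0 (br u))
    rw [update_of_ne (Ne.symm h10), update_of_ne (Ne.symm h10)]
    exact hIJ
  have hraw := slots_raw Om (fun y => y) hq hal
    (fun d I => hQ_of hq Om hy Θ t0 t1 h2 d I)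
  intro k hk0 hk1 i
  obtain ⟨-, hA, hQ⟩ := hraw (h - k.val) k rfl hk0 hk1
  apply (Pi.basisFun F (W h)).ext
  intro v
  rw [Pi.basisFun_apply]
  funext w
  have e0 : (Pi.single v 1 : W h → F) = dl F v := rfl
  rw [e0, slot_entry]
  have h1k : (1 : ZMod h) ≠ k := Ne.symm hk1
  by_cases hvw : w 1 = v 1
  · -- entries are values of `Tf`
    have hent : ∀ V U : W h, U 1 = V 1 → Θ i (dl F V) U = Tf Om (fun y => y) (br i) (wbr V) U := by
      intro V U hUV
      rw [hTf, br_br, wbr_wbr, ker_apply (t1 i), update_self, if_pos rfl, update_idem, ← hUV,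
        update_eq_self]
    have key := fin_check (fun a c => Θ i (dl F (update v k c)) (update w k a))
      (fun c a => Tf Om (fun y => y) (br i) (update (wbr v) k c) (update w k a)) ?_ ?_ ?_ ?_
      (w k) (v k)
    · simp only [update_eq_self] at key
      exact key
    · intro a c
      rw [hent _ _ (by rw [update_of_ne h1k, update_of_ne h1k]; exact hvw), wbr_update]
    · intro a
      apply hA
      rw [update_self, update_self]
    · intro a c
      rw [Tf_upd _ _ k hk1, Tf_upd _ _ k hk1]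
      exact Finset.sum_congr rfl fun y _ => by ring
    · exact hQ _ _ _
  · rw [ker_zero (t1 i) v w hvw]
    symm
    refine Finset.sum_eq_zero fun b _ => ?_
    rw [ker_zero (t1 i), mul_zero]
    rw [update_of_ne h1k, update_of_ne h1k]
    exact hvw

end main

end Pool.OVS
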